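import Pool.Agent.SokDia.Sok

/-!
# Point-finite families of open sets in `C_p` of the one-point compactification
-/

open Set Filter Topology

namespace Pool.Agent.SokDia

/-- Uncountable pigeonhole principle. -/
theorem exists_fiber {ι : Type*} {κ : Type*} [Countable κ] (f : ι → κ) (s : Set ι)
    (hs : ¬ s.Countable) : ∃ c, ¬ {i ∈ s | f i = c}.Countable := by
  by_contra hcon
  push Not at hcon
  apply hs
  have h1 : s ⊆ ⋃ c, {i ∈ s | f i = c} := fun i hi => mem_iUnion.2 ⟨f i, hi, rfl⟩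
  exact (countable_iUnion hcon).mono h1

/-- A weak form of the delta system lemma. -/
theorem exists_root {ι : Type*} {α : Type*} [DecidableEq α] (F : ι → Finset α) (c : ℕ)
    (s : Set ι) (hs : ¬ s.Countable) (hF : ∀ i ∈ s, (F i).card ≤ c) :
    ∃ R : Finset α, ¬ {i ∈ s | R ⊆ F i}.Countable ∧
      ∀ x, x ∉ R → {i ∈ s | insert x R ⊆ F i}.Countable := by
  by_contra hcon
  push Not at hcon
  have h1 : ∀ n : ℕ, ∃ R : Finset α, R.card = n ∧ ¬ {i ∈ s | R ⊆ F i}.Countable := by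
    intro n
    induction n with
    | zero => exact ⟨∅, rfl, by simpa using hs⟩
    | succ n ih =>
      obtain ⟨R, hR, h2⟩ := ih
      obtain ⟨x, hx, h3⟩ := hcon R h2
      exact ⟨insert x R, by rw [Finset.card_insert_of_notMem hx, hR], h3⟩
  obtain ⟨R, hR, h2⟩ := h1 (c + 1)
  apply h2
  have h3 : {i ∈ s | R ⊆ F i} = ∅ := by
    ext i
    simp only [mem_ofPred_eq, mem_empty_iff_false, iff_false, not_and]
    intro hi hRi
    have := (Finset.card_le_card hRi).trans (hF i hi)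
    omega
  rw [h3]
  exact countable_empty

/-- Basic neighbourhoods in `C_p(X)`. -/
theorem basic_nhd {X : Type} [TopologicalSpace X] (U : Set {g : X → ℝ // Continuous g})
    (hU : IsOpen U) (g : {g : X → ℝ // Continuous g}) (hg : g ∈ U) :
    ∃ (F : Finset X) (n : ℕ), ∀ g' : {g : X → ℝ // Continuous g},
      (∀ x ∈ F, |g'.1 x - g.1 x| < 1 / ((n : ℝ) + 1)) → g' ∈ U := by
  obtain ⟨O, hO, rfl⟩ := isOpen_induced_iff.1 hU
  obtain ⟨I, u, hu, hIO⟩ := isOpen_pi_iff.1 hO g.1 hg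
  have h1 : ∀ x : X, ∃ n : ℕ, x ∈ I → ∀ y : ℝ, |y - g.1 x| < 1 / ((n : ℝ) + 1) → y ∈ u x := by
    intro x
    by_cases hx : x ∈ I
    · obtain ⟨ε, hε, hball⟩ := Metric.isOpen_iff.1 (hu x hx).1 _ (hu x hx).2
      obtain ⟨n, hn⟩ := exists_nat_one_div_lt hε
      exact ⟨n, fun _ y hy => hball (by
        rw [Metric.mem_ball, Real.dist_eq]; exact hy.trans hn)⟩
    · exact ⟨0, fun h => absurd h hx⟩
  choose n hn using h1
  refine ⟨I, I.sup n, fun g' hg' => ?_⟩
  refine hIO (fun x hx => hn x hx _ ((hg' x hx).trans_le ?_))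
  have h2 : n x ≤ I.sup n := Finset.le_sup hx
  have h3 : (n x : ℝ) ≤ (I.sup n : ℕ) := by exact_mod_cast h2
  exact one_div_le_one_div_of_le (by positivity) (by linarith)

/-- Patching a continuous function on finitely many disjoint clopen sets. -/
theorem exists_patch {X : Type} [TopologicalSpace X] {k : ℕ} (V : Fin k → Set X)
    (hV : ∀ j, IsClopen (V j)) (hd : ∀ j j', j ≠ j' → Disjoint (V j) (V j')) (q : Fin k → ℝ)
    (f : X → ℝ) (hf : Continuous f) :
    ∃ g : X → ℝ, Continuous g ∧ (∀ j, ∀ x ∈ V j, g x = q j) ∧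
      ∀ x, (∀ j, x ∉ V j) → g x = f x := by
  refine ⟨fun x => f x + ∑ j, (LocallyConstant.charFn ℝ (hV j)) x * (q j - f x), ?_, ?_, ?_⟩
  · refine hf.add (continuous_finsetSum _ (fun j _ => ?_))
    exact (LocallyConstant.charFn ℝ (hV j)).continuous.mul (continuous_const.sub hf)
  · intro j x hx
    have h1 : ∀ j', (LocallyConstant.charFn ℝ (hV j')) x = if j' = j then 1 else 0 := by
      intro j'
      by_cases hj : j' = j
      · subst hj
        rw [if_pos rfl]
        exact (LocallyConstant.charFn_eq_one ℝ x (hV j')).2 hx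
      · rw [if_neg hj]
        exact (LocallyConstant.charFn_eq_zero ℝ x (hV j')).2
          (fun h => Set.disjoint_left.1 (hd j' j hj) h hx)
    simp only [h1, ite_mul, one_mul, zero_mul, Finset.sum_ite_eq', Finset.mem_univ, if_true]
    ring
  · intro x hx
    have h1 : ∀ j', (LocallyConstant.charFn ℝ (hV j')) x = 0 := fun j' =>
      (LocallyConstant.charFn_eq_zero ℝ x (hV j')).2 (hx j')
    simp only [h1, zero_mul, Finset.sum_const_zero, add_zero]

variable {Ω : Type} [LinearOrder Ω] [WellFoundedLT Ω] {T : Set Ω} (D : Data Ω T)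

/-- The ladders guess every unbounded family of tuples. -/
def Guess {Ω : Type} [LinearOrder Ω] {T : Set Ω} (D : Data Ω T) : Prop :=
  ∀ (k : ℕ) (𝒜 : Set (Σ k, Fin k → Ω × ℕ)), k ≠ 0 →
    (∀ t ∈ 𝒜, t.1 = k ∧ Function.Injective t.2) → (∀ γ : Ω, ∃ t ∈ 𝒜, ∀ j, γ < (t.2 j).1) →
    ∃ δ, D.k δ ≠ 0 ∧ ∀ i, (⟨D.k δ, D.s δ i⟩ : Σ k, Fin k → Ω × ℕ) ∈ 𝒜

/-- Point-finite families of nonempty open subsets of `C_p` of the compactification are
countable. -/
theorem pointFinite (hc : ∀ a : Ω, (Iio a).Countable) (hu : ¬ Countable Ω) (hD : Guess D) :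
    Sokolov.PointFiniteCellularityCp (OnePoint D.Sp) := by
  classical
  intro 𝒰 h𝒰 hpf
  by_contra hunc
  set W := OnePoint D.Sp with hW
  -- centres
  have hch : ∀ U : 𝒰, ∃ (g : {g : W → ℝ // Continuous g}) (F : Finset W) (n : ℕ),
      ∀ g' : {g : W → ℝ // Continuous g},
        (∀ x ∈ F, |g'.1 x - g.1 x| < 1 / ((n : ℝ) + 1)) → g' ∈ U.1 := by
    intro U
    obtain ⟨g, hg⟩ := (h𝒰 U.1 U.2).2
    obtain ⟨F, n, h1⟩ := basic_nhd U.1 (h𝒰 U.1 U.2).1 g hg
    exact ⟨g, F, n, h1⟩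
  choose g F n hgF using hch
  have hs0 : ¬ (univ : Set 𝒰).Countable := by
    intro h
    exact hunc (countable_coe_iff.1 (countable_univ_iff.1 h))
  obtain ⟨nc, hs1⟩ := exists_fiber (fun U : 𝒰 => ((n U, (F U).card) : ℕ × ℕ)) univ hs0
  obtain ⟨n0, c0⟩ := nc
  set s1 : Set 𝒰 := {i | i ∈ univ ∧ (n i, (F i).card) = (n0, c0)} with hs1def
  have hn1 : ∀ U ∈ s1, n U = n0 := fun U hU => (Prod.mk.inj hU.2).1
  have hc1 : ∀ U ∈ s1, (F U).card = c0 := fun U hU => (Prod.mk.inj hU.2).2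
  obtain ⟨R, hR1, hR2⟩ := exists_root F c0 s1 hs1 (fun i hi => (hc1 i hi).le)
  set s2 : Set 𝒰 := {i | i ∈ s1 ∧ R ⊆ F i} with hs2def
  -- remove the point at infinity
  set s3 : Set 𝒰 := {i | i ∈ s2 ∧ (OnePoint.infty : W) ∉ F i \ R} with hs3def
  have hs3 : ¬ s3.Countable := by
    intro h
    apply hR1
    by_cases hinf : (OnePoint.infty : W) ∈ R
    · refine h.mono (fun i hi => ?_)
      exact ⟨hi, fun h' => (Finset.mem_sdiff.1 h').2 hinf⟩
    · refine (h.union (hR2 _ hinf)).mono (fun i hi => ?_)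
      by_cases h' : (OnePoint.infty : W) ∈ F i \ R
      · right
        change i ∈ s1 ∧ insert (OnePoint.infty : W) R ⊆ F i
        refine ⟨hi.1, ?_⟩
        intro y hy
        rcases Finset.mem_insert.1 hy with rfl | hy
        · exact (Finset.mem_sdiff.1 h').1
        · exact hi.2 hy
      · exact Or.inl ⟨hi, h'⟩
  -- enumerations
  set k := c0 - R.card with hk
  have hcard : ∀ U ∈ s3, (F U \ R).card = k := by
    intro U hU
    rw [Finset.card_sdiff_of_subset hU.1.2, hc1 U hU.1.1]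
  have henum : ∀ U : 𝒰, ∃ t : Fin k → D.Sp, U ∈ s3 → Function.Injective t ∧
      (∀ x ∈ F U, x ∉ R → ∃ j, x = ((t j : D.Sp) : W)) ∧
      ∀ j, ((t j : D.Sp) : W) ∈ F U ∧ ((t j : D.Sp) : W) ∉ R := by
    intro U
    by_cases hU : U ∈ s3
    · let e := (F U \ R).equivFinOfCardEq (hcard U hU)
      have h1 : ∀ j : Fin k, ∃ a : D.Sp, (a : W) = (e.symm j).1 := by
        intro j
        have h2 : (e.symm j).1 ≠ OnePoint.infty := by
          intro h
          exact hU.2 (h ▸ (e.symm j).2)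
        exact OnePoint.ne_infty_iff_exists.1 h2
      choose t ht using h1
      refine ⟨t, fun _ => ⟨?_, ?_, ?_⟩⟩
      · intro j j' hjj
        have h3 : (e.symm j).1 = (e.symm j').1 := by rw [← ht j, ← ht j', hjj]
        exact e.symm.injective (Subtype.ext h3)
      · intro x hx hxR
        refine ⟨e ⟨x, Finset.mem_sdiff.2 ⟨hx, hxR⟩⟩, ?_⟩
        rw [ht, Equiv.symm_apply_apply]
      · intro j
        have h3 := Finset.mem_sdiff.1 (e.symm j).2
        rw [ht j]
        exact h3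
    · obtain ⟨δ0, -⟩ := bdd_of_countable hc hu ∅ countable_empty
      exact ⟨fun _ => ((δ0, 0) : Ω × ℕ), fun h => absurd h hU⟩
  choose t ht using henum
  -- rational approximations
  have hε : (0 : ℝ) < 1 / ((n0 : ℝ) + 1) / 2 := by positivity
  have hq : ∀ U : 𝒰, ∃ q : Fin k → ℚ, ∀ j, |(q j : ℝ) - (g U).1 (t U j)| <
      1 / ((n0 : ℝ) + 1) / 2 := by
    intro U
    have h1 : ∀ j, ∃ q : ℚ, |(q : ℝ) - (g U).1 (t U j)| < 1 / ((n0 : ℝ) + 1) / 2 := by
      intro j
      obtain ⟨q, hq⟩ := exists_rat_near ((g U).1 (t U j)) hε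
      exact ⟨q, by rwa [abs_sub_comm]⟩
    choose q hq using h1
    exact ⟨q, hq⟩
  choose q hq using hq
  have hr : ∀ U : 𝒰, ∃ r : R → ℚ, ∀ x : R, |(r x : ℝ) - (g U).1 x.1| <
      1 / ((n0 : ℝ) + 1) / 2 := by
    intro U
    have h1 : ∀ x : R, ∃ q : ℚ, |(q : ℝ) - (g U).1 x.1| < 1 / ((n0 : ℝ) + 1) / 2 := by
      intro x
      obtain ⟨q, hq⟩ := exists_rat_near ((g U).1 x.1) hε
      exact ⟨q, by rwa [abs_sub_comm]⟩
    choose q hq using h1
    exact ⟨q, hq⟩
  choose r hr using hr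
  obtain ⟨qr, hs4⟩ := exists_fiber (fun U : 𝒰 => ((q U, r U) : (Fin k → ℚ) × (R → ℚ))) s3 hs3
  obtain ⟨q0, r0⟩ := qr
  set s4 : Set 𝒰 := {i | i ∈ s3 ∧ (q i, r i) = (q0, r0)} with hs4def
  have hq4 : ∀ U ∈ s4, q U = q0 := fun U hU => (Prod.mk.inj hU.2).1
  have hr4 : ∀ U ∈ s4, r U = r0 := fun U hU => (Prod.mk.inj hU.2).2
  have hclose : ∀ U ∈ s4, ∀ U' ∈ s4, ∀ x ∈ R, |(g U).1 x - (g U').1 x| < 1 / ((n0 : ℝ) + 1) := by
    intro U hU U' hU' x hx
    have h1 := hr U ⟨x, hx⟩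
    have h2 := hr U' ⟨x, hx⟩
    rw [hr4 U hU] at h1
    rw [hr4 U' hU'] at h2
    have h3 : (g U).1 x - (g U').1 x =
        ((r0 ⟨x, hx⟩ : ℝ) - (g U').1 x) - ((r0 ⟨x, hx⟩ : ℝ) - (g U).1 x) := by ring
    rw [h3]
    calc |((r0 ⟨x, hx⟩ : ℝ) - (g U').1 x) - ((r0 ⟨x, hx⟩ : ℝ) - (g U).1 x)| ≤
        |(r0 ⟨x, hx⟩ : ℝ) - (g U').1 x| + |(r0 ⟨x, hx⟩ : ℝ) - (g U).1 x| := abs_sub _ _
      _ < 1 / ((n0 : ℝ) + 1) := by linarith
  obtain ⟨U0, hU0⟩ : s4.Nonempty := by
    by_contra h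
    rw [not_nonempty_iff_eq_empty] at h
    exact hs4 (h ▸ countable_empty)
  by_cases hk0 : k = 0
  · -- no moving part
    apply hs4
    have h1 : s4 ⊆ (fun U : 𝒰 => U.1) ⁻¹' {U | U ∈ 𝒰 ∧ g U0 ∈ U} := by
      intro U hU
      refine ⟨U.2, hgF U _ (fun x hx => ?_)⟩
      rw [hn1 U hU.1.1.1]
      refine hclose U0 hU0 U hU x ?_
      by_contra hxR
      obtain ⟨j, -⟩ := (ht U hU.1).2.1 x hx hxR
      exact absurd j.2 (by omega)
    exact (((hpf (g U0)).preimage Subtype.val_injective.injOn).subset h1).countable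
  · -- bound for the root
    obtain ⟨ρ, hρ⟩ : ∃ ρ : Ω, ∀ a : D.Sp, (a : W) ∈ R → D.lev a < ρ := by
      obtain ⟨ρ, hρ⟩ := bdd_of_countable hc hu (D.lev '' {a : D.Sp | (a : W) ∈ R}) (by
        refine Countable.image (Set.Finite.countable ?_) _
        exact (R.finite_toSet).preimage (OnePoint.coe_injective.injOn))
      exact ⟨ρ, fun a ha => hρ _ ⟨a, ha, rfl⟩⟩
    have hlarge : ∀ γ : Ω, ∃ U ∈ s4, ∀ j, γ < D.lev (t U j) := by
      intro γ
      by_contra hcon
      push Not at hcon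
      apply hs4
      obtain ⟨γ', hγ'⟩ := bdd_of_countable hc hu {γ} (countable_singleton γ)
      have h1 : s4 ⊆ ⋃ a ∈ {a : D.Sp | D.lev a < γ' ∧ (a : W) ∉ R},
          {i | i ∈ s1 ∧ insert (a : W) R ⊆ F i} := by
        intro U hU
        obtain ⟨j, hj⟩ := hcon U hU
        refine mem_iUnion₂.2 ⟨t U j, ⟨lt_of_le_of_lt hj (hγ' γ rfl),
          ((ht U hU.1).2.2 j).2⟩, hU.1.1.1, ?_⟩
        intro y hy
        rcases Finset.mem_insert.1 hy with rfl | hy
        · exact ((ht U hU.1).2.2 j).1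
        · exact hU.1.1.2 hy
      refine Countable.mono h1 (Countable.biUnion ?_ (fun a ha => hR2 _ ha.2))
      exact (D.countable_lev_lt hc γ').mono (fun a ha => ha.1)
    -- the family of tuples
    let 𝒜 : Set (Σ k, Fin k → Ω × ℕ) :=
      {τ | ∃ U ∈ s4, (∀ j, ρ < D.lev (t U j)) ∧ τ = ⟨k, t U⟩}
    obtain ⟨δ, hδ0, hδ⟩ := hD k 𝒜 hk0 (by
      rintro τ ⟨U, hU, -, rfl⟩
      exact ⟨rfl, (ht U hU.1).1⟩) (by
      intro γ
      obtain ⟨U, hU, h1⟩ := hlarge (max γ ρ)
      exact ⟨⟨k, t U⟩, ⟨U, hU, fun j => (le_max_right _ _).trans_lt (h1 j), rfl⟩,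
        fun j => (le_max_left _ _).trans_lt (h1 j)⟩)
    have hkδ : D.k δ = k := by
      obtain ⟨U, -, -, h⟩ := hδ 0
      exact congrArg Sigma.fst h
    choose Us hUs4 hUsρ hUs using hδ
    have hval : ∀ i (j : Fin (D.k δ)), D.s δ i j = t (Us i) (Fin.cast hkδ j) := by
      intro i j
      have h1 := hUs i
      clear_value k
      subst hkδ
      have h2 := eq_of_heq (Sigma.mk.inj h1).2
      rw [h2]
      rfl
    have hg := D.good δ hδ0
    have hmono : StrictMono (D.b δ) := strictMono_nat_of_lt_succ hg.lt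
    have hρδ : ρ < δ := by
      have j0 : Fin (D.k δ) := ⟨0, Nat.pos_of_ne_zero hδ0⟩
      have h1 := hUsρ 0 (Fin.cast hkδ j0)
      have h2 := D.s_lt δ 0 j0
      rw [hval] at h2
      exact h1.trans h2
    obtain ⟨m, hm⟩ := hg.cof ρ hρδ
    -- the neighbourhoods of the limit tuple
    let V : Fin (D.k δ) → Set W := fun j => (fun x : D.Sp => (x : W)) '' D.NN ((δ, j.1) : Ω × ℕ) m
    have hV : ∀ j, IsClopen (V j) := by
      intro j
      refine ⟨?_, OnePoint.isOpen_image_coe.2 (D.isOpen_NN _ _)⟩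
      exact OnePoint.isClosed_image_coe.2 ⟨D.isClosed_NN _ _, D.isCompact_NN _ _⟩
    have hVd : ∀ j j', j ≠ j' → Disjoint (V j) (V j') := by
      intro j j' hjj
      rw [Set.disjoint_left]
      rintro _ ⟨x, hx, rfl⟩ ⟨y, hy, hxy⟩
      have h1 : y = x := OnePoint.coe_injective hxy
      subst h1
      exact Set.disjoint_left.1 (D.N_disj_same δ (fun h => hjj (Fin.ext h)) m m) hx hy
    have hVR : ∀ x ∈ R, ∀ j, x ∉ V j := by
      rintro x hx j ⟨a, ha, rfl⟩
      have h1 := hρ a hx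
      rcases D.N_high ha with h2 | h2
      · have h3 : D.lev a = δ := by rw [h2]; rfl
        rw [h3] at h1
        exact absurd (h1.trans hρδ) (lt_irrefl _)
      · exact absurd ((hm.trans_le h2).trans h1) (lt_irrefl _)
    obtain ⟨G, hG, hGV, hGc⟩ := exists_patch V hV hVd (fun j => (q0 (Fin.cast hkδ j) : ℝ))
      (g U0).1 (g U0).2
    have hmem : ∀ i, m ≤ i → (⟨G, hG⟩ : {g : W → ℝ // Continuous g}) ∈ (Us i).1 := by
      intro i hi
      refine hgF (Us i) _ (fun x hx => ?_)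
      rw [hn1 (Us i) (hUs4 i).1.1.1]
      by_cases hxR : x ∈ R
      · change |G x - (g (Us i)).1 x| < _
        rw [hGc x (hVR x hxR)]
        exact hclose U0 hU0 (Us i) (hUs4 i) x hxR
      · obtain ⟨j, rfl⟩ := (ht (Us i) (hUs4 i).1).2.1 x hx hxR
        change |G ((t (Us i) j : D.Sp) : W) - (g (Us i)).1 (t (Us i) j)| < _
        have h1 : ((t (Us i) j : D.Sp) : W) ∈ V (Fin.cast hkδ.symm j) := by
          refine ⟨t (Us i) j, ?_, rfl⟩
          have h2 := hval i (Fin.cast hkδ.symm j)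
          have h3 : D.s δ i (Fin.cast hkδ.symm j) ∈ D.N (δ, (Fin.cast hkδ.symm j).1) m :=
            D.s_mem_N δ _ hi
          rw [h2] at h3
          exact h3
        rw [hGV _ _ h1]
        have h4 := hq (Us i) j
        rw [hq4 (Us i) (hUs4 i)] at h4
        have h5 : Fin.cast hkδ (Fin.cast hkδ.symm j) = j := rfl
        rw [h5]
        linarith
    have hinj : Function.Injective Us := by
      intro i i' hii
      have j0 : Fin (D.k δ) := ⟨0, Nat.pos_of_ne_zero hδ0⟩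
      have h1 : D.s δ i j0 = D.s δ i' j0 := by rw [hval, hval, hii]
      by_contra hne
      rcases lt_or_gt_of_ne hne with h | h
      · have h2 := hg.high i j0
        have h3 := hg.low i' j0
        rw [← h1] at h3
        exact absurd (lt_of_lt_of_le h2 ((hmono.monotone h).trans h3)) (lt_irrefl _)
      · have h2 := hg.high i' j0
        have h3 := hg.low i j0
        rw [h1] at h3
        exact absurd (lt_of_lt_of_le h2 ((hmono.monotone h).trans h3)) (lt_irrefl _)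
    have hfin := hpf ⟨G, hG⟩
    have h6 : (Set.Ici m).Finite := by
      refine Set.Finite.of_finite_image (f := fun i => (Us i).1) (hfin.subset ?_)
        ((Subtype.val_injective.comp hinj).injOn)
      rintro _ ⟨i, hi, rfl⟩
      exact ⟨(Us i).2, hmem i hi⟩
    exact (Set.Ici_infinite m) h6

end Pool.Agent.SokDia
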