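import Mathlib

/-! # Jensen's diamond principle -/

open Set
open scoped Ordinal Cardinal

namespace Pool.Agent.SokDia

/-- The well-ordered set `ω₁`. -/
abbrev Ω₁ : Type := (ω₁ : Ordinal.{0}).ToType

/-- Jensen's principle `◇`: there are sets `A δ`, `δ < ω₁`, such that for every `X ⊆ ω₁` the set
of all `δ < ω₁` with `X ∩ δ = A δ` is stationary in `ω₁` (`Iio δ` is the set of the ordinals
below `δ`). -/
def Diamond : Prop :=
  ∃ A : Ω₁ → Set Ω₁, ∀ X : Set Ω₁, IsStationary {δ : Ω₁ | X ∩ Iio δ = A δ}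

end Pool.Agent.SokDia
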