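import Pool.Agent.SokDia.Cp
import Pool.Agent.SokDia.Defs

/-!
# Ladders from the diamond principle
-/

open Set Filter Topology
open scoped Ordinal Cardinal

namespace Pool.Agent.SokDia

theorem countable_Iio_Ω₁ (a : Ω₁) : (Iio a).Countable := by
  rw [← Cardinal.le_aleph0_iff_set_countable, ← Cardinal.lt_aleph_one_iff]
  have h1 := Cardinal.mk_Iio_lt a (by simp)
  rwa [Cardinal.mk_toType, Ordinal.card_omega] at h1

theorem not_countable_Ω₁ : ¬ Countable Ω₁ := by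
  intro h
  have h1 : #Ω₁ ≤ ℵ₀ := Cardinal.mk_le_aleph0_iff.2 h
  rw [Cardinal.mk_toType, Ordinal.card_omega] at h1
  exact absurd h1 (not_le.2 Cardinal.aleph0_lt_aleph_one)

theorem exists_code : Nonempty (Option (Σ k, Fin k → Ω₁ × ℕ) ↪ Ω₁) := by
  rw [← Cardinal.le_def]
  have h0 : #Ω₁ = ℵ_ 1 := by rw [Cardinal.mk_toType, Ordinal.card_omega]
  have h1 : #(Ω₁ × ℕ) = ℵ_ 1 := by
    rw [Cardinal.mk_prod, h0]
    simp
  have hinf : Infinite (Ω₁ × ℕ) := by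
    rw [Cardinal.infinite_iff, h1]
    exact Cardinal.aleph0_le_aleph 1
  have h2 : #(Σ k, Fin k → Ω₁ × ℕ) = ℵ_ 1 := by
    rw [← Cardinal.mk_congr (List.equivSigmaTuple (α := Ω₁ × ℕ)), Cardinal.mk_list_eq_mk, h1]
  rw [Cardinal.mk_option, h2, h0]
  exact (Cardinal.add_one_eq (Cardinal.aleph0_le_aleph 1)).le

section

variable {Ω : Type} [LinearOrder Ω] [WellFoundedLT Ω]

/-- The set of closure points of a function is a club. -/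
theorem isClub_closure (hc : ∀ a : Ω, (Iio a).Countable) (hu : ¬ Countable Ω) (h : Ω → Ω) :
    IsClub {δ : Ω | (∃ γ, γ < δ) ∧ ∀ γ < δ, h γ < δ} := by
  constructor
  · intro d hd hne _ a ha
    obtain ⟨δ, hδ⟩ := hne
    refine ⟨?_, ?_⟩
    · obtain ⟨γ, hγ⟩ := (hd hδ).1
      exact ⟨γ, hγ.trans_le (ha.1 hδ)⟩
    · intro γ hγ
      obtain ⟨δ', hδ', hγδ⟩ := (lt_isLUB_iff ha).1 hγ
      exact ((hd hδ').2 γ hγδ).trans_le (ha.1 hδ')
  · intro a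
    have h1 : ∀ γ : Ω, ∃ η, γ < η ∧ ∀ γ' ≤ γ, h γ' < η := by
      intro γ
      obtain ⟨η, hη⟩ := bdd_of_countable hc hu ({γ} ∪ h '' (Iio γ ∪ {γ}))
        ((countable_singleton _).union (((hc γ).union (countable_singleton _)).image _))
      refine ⟨η, hη γ (Or.inl rfl), fun γ' hγ' => hη _ (Or.inr ⟨γ', ?_, rfl⟩)⟩
      rcases hγ'.lt_or_eq with h2 | h2
      · exact Or.inl h2
      · exact Or.inr h2
    choose η hη1 hη2 using h1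
    let s : ℕ → Ω := fun n => η^[n] a
    have hs : ∀ n, s (n + 1) = η (s n) := fun n => Function.iterate_succ_apply' η n a
    obtain ⟨b, hb⟩ := bdd_of_countable hc hu (range s) (countable_range s)
    have hne : (upperBounds (range s)).Nonempty := ⟨b, fun x hx => (hb x hx).le⟩
    set β := WellFounded.min (wellFounded_lt (α := Ω)) _ hne with hβ
    have hβ1 : β ∈ upperBounds (range s) := WellFounded.min_mem _ _ hne
    have hβ2 : ∀ γ < β, ∃ n, γ < s n := by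
      intro γ hγ
      by_contra hcon
      push Not at hcon
      have h3 : γ ∈ upperBounds (range s) := by
        rintro _ ⟨n, rfl⟩
        exact hcon n
      exact WellFounded.not_lt_min _ _ h3 hγ
    refine ⟨β, ⟨⟨s 0, ?_⟩, ?_⟩, hβ1 ⟨0, rfl⟩⟩
    · have h3 : s 0 < s 1 := by rw [hs 0]; exact hη1 _
      exact h3.trans_le (hβ1 ⟨1, rfl⟩)
    · intro γ hγ
      obtain ⟨n, hn⟩ := hβ2 γ hγ
      have h3 : h γ < s (n + 1) := by rw [hs n]; exact hη2 _ _ hn.le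
      exact h3.trans_le (hβ1 ⟨n + 1, rfl⟩)

/-- Ladders from diamond. -/
theorem exists_data (hc : ∀ a : Ω, (Iio a).Countable) (hu : ¬ Countable Ω)
    (c : Option (Σ k, Fin k → Ω × ℕ) ↪ Ω) (A : Ω → Set Ω)
    (hA : ∀ X : Set Ω, IsStationary {δ : Ω | X ∩ Iio δ = A δ}) :
    ∃ (T : Set Ω) (D : Data Ω T), Guess D ∧
      ∀ h : Ω → Ω, ∃ δ, δ ∉ T ∧ (∃ γ, γ < δ) ∧ ∀ γ < δ, h γ < δ := by
  classical
  have hA' : ∀ (X : Set Ω) (h : Ω → Ω), ∃ δ, X ∩ Iio δ = A δ ∧ (∃ γ, γ < δ) ∧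
      ∀ γ < δ, h γ < δ := by
    intro X h
    obtain ⟨δ, h1, h2⟩ := hA X (isClub_closure hc hu h)
    exact ⟨δ, h1, h2⟩
  set T : Set Ω := {δ | c none ∈ A δ} with hT
  have hT0 : ∀ h : Ω → Ω, ∃ δ, δ ∉ T ∧ (∃ γ, γ < δ) ∧ ∀ γ < δ, h γ < δ := by
    intro h
    obtain ⟨δ, h1, h2, h3⟩ := hA' ∅ h
    refine ⟨δ, ?_, h2, h3⟩
    rw [hT, Set.mem_ofPred_eq, ← h1]
    simp
  -- the ladders
  have hex : ∀ δ : Ω, ∃ (k : ℕ) (b : ℕ → Ω) (s : ℕ → Fin k → Ω × ℕ),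
      (k ≠ 0 → Good T δ k b s ∧ ∀ i, c (some ⟨k, s i⟩) ∈ A δ) ∧
      ((∃ (k' : ℕ) (b' : ℕ → Ω) (s' : ℕ → Fin k' → Ω × ℕ), k' ≠ 0 ∧ Good T δ k' b' s' ∧
        ∀ i, c (some ⟨k', s' i⟩) ∈ A δ) → k ≠ 0) := by
    intro δ
    by_cases hδ : ∃ (k' : ℕ) (b' : ℕ → Ω) (s' : ℕ → Fin k' → Ω × ℕ), k' ≠ 0 ∧
        Good T δ k' b' s' ∧ ∀ i, c (some ⟨k', s' i⟩) ∈ A δ
    · obtain ⟨k, b, s, hk, h1, h2⟩ := hδ
      exact ⟨k, b, s, fun _ => ⟨h1, h2⟩, fun _ => hk⟩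
    · exact ⟨0, fun _ => δ, fun _ j => j.elim0, fun h => absurd rfl h, fun h => absurd h hδ⟩
  choose k b s hks1 hks2 using hex
  refine ⟨T, ⟨k, b, s, fun δ hδ => (hks1 δ hδ).1⟩, ?_, hT0⟩
  intro K 𝒜 hK h𝒜 hunb
  -- the closure function
  have hstep : ∀ γ : Ω, ∃ η, γ < η ∧ c none < η ∧ (∃ β, β ∉ T ∧ γ < β ∧ β < η) ∧
      ∃ t : Fin K → Ω × ℕ, Function.Injective t ∧ (⟨K, t⟩ : Σ k, Fin k → Ω × ℕ) ∈ 𝒜 ∧
        (∀ j, γ < (t j).1 ∧ (t j).1 < η) ∧ c (some ⟨K, t⟩) < η := by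
    intro γ
    obtain ⟨⟨K', t⟩, ht1, ht2⟩ := hunb γ
    obtain ⟨rfl, ht3⟩ := h𝒜 _ ht1
    obtain ⟨β, hβ1, ⟨γ', hγ'⟩, hβ2⟩ := hT0 (fun _ => γ)
    obtain ⟨η, hη⟩ := bdd_of_countable hc hu
      ({γ, c none, β, c (some ⟨K', t⟩)} ∪ range (fun j => (t j).1))
      (((Set.toFinite _).countable).union (countable_range _))
    refine ⟨η, hη _ (Or.inl (by simp)), hη _ (Or.inl (by simp)),
      ⟨β, hβ1, hβ2 γ' hγ', hη _ (Or.inl (by simp))⟩, t, ht3, ht1,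
      fun j => ⟨ht2 j, hη _ (Or.inr ⟨j, rfl⟩)⟩, hη _ (Or.inl (by simp))⟩
  choose η hη1 hη2 hη3 hη4 using hstep
  obtain ⟨δ, hδA, ⟨γ0, hγ0⟩, hδ⟩ := hA' ({c none} ∪ (fun τ => c (some τ)) '' 𝒜) η
  have hcn : c none < δ := (hη2 γ0).trans (hδ γ0 hγ0)
  have hδT : δ ∈ T := by
    rw [hT, Set.mem_ofPred_eq, ← hδA]
    exact ⟨Or.inl rfl, hcn⟩
  have hdec : ∀ τ : Σ k, Fin k → Ω × ℕ, c (some τ) ∈ A δ → τ ∈ 𝒜 := by
    intro τ hτ
    rw [← hδA] at hτ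
    rcases hτ.1 with h1 | ⟨τ', hτ', h1⟩
    · exact absurd (c.injective h1) (by simp)
    · have h2 := Option.some_injective _ (c.injective h1)
      rwa [← h2]
  -- enumerate the ordinals below `δ`
  obtain ⟨e, he⟩ := (hc δ).exists_eq_range ⟨γ0, hγ0⟩
  have hnext : ∀ (β : Ω) (n : ℕ), ∃ (β' : Ω) (t : Fin K → Ω × ℕ), (β < δ → β' < δ ∧ β' ∉ T ∧
      β < β' ∧ e n < β' ∧ Function.Injective t ∧ c (some ⟨K, t⟩) ∈ A δ ∧
      ∀ j, β ≤ (t j).1 ∧ (t j).1 < β') := by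
    intro β n
    by_cases hβ : β < δ
    · obtain ⟨t, ht1, ht2, ht3, ht4⟩ := hη4 β
      have hen : e n < δ := by
        have : e n ∈ Iio δ := by rw [he]; exact ⟨n, rfl⟩
        exact this
      have hm : max (η β) (e n) < δ := max_lt (hδ β hβ) hen
      obtain ⟨β', hβ1, hβ2, hβ3⟩ := hη3 (max (η β) (e n))
      refine ⟨β', t, fun _ => ⟨hβ3.trans (hδ _ hm), hβ1, ?_, ?_, ht1, ?_, fun j => ⟨(ht3 j).1.le,
        ?_⟩⟩⟩
      · exact (hη1 β).trans ((le_max_left _ _).trans_lt hβ2)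
      · exact (le_max_right _ _).trans_lt hβ2
      · rw [← hδA]
        exact ⟨Or.inr ⟨_, ht2, rfl⟩, ht4.trans (hδ β hβ)⟩
      · exact (ht3 j).2.trans ((le_max_left _ _).trans_lt hβ2)
    · obtain ⟨t, -⟩ := hη4 β
      exact ⟨β, t, fun h => absurd h hβ⟩
  choose nb nt hnb using hnext
  obtain ⟨β0, hβ0T, -, hβ0⟩ := hη3 γ0
  let B : ℕ → Ω := fun n => Nat.rec β0 (fun n β => nb β n) n
  have hBs : ∀ n, B (n + 1) = nb (B n) n := fun n => rfl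
  have hBδ : ∀ n, B n < δ ∧ B n ∉ T := by
    intro n
    induction n with
    | zero => exact ⟨hβ0.trans (hδ γ0 hγ0), hβ0T⟩
    | succ n ih =>
      have := hnb (B n) n ih.1
      rw [hBs]
      exact ⟨this.1, this.2.1⟩
  have hgood : Good T δ K B (fun n => nt (B n) n) := by
    refine ⟨hδT, fun n => (hBδ n).2, fun n => ?_, fun n => (hBδ n).1, ?_, ?_, ?_, ?_⟩
    · rw [hBs]; exact (hnb (B n) n (hBδ n).1).2.2.1
    · intro γ hγ
      have h1 : γ ∈ range e := by rw [← he]; exact hγ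
      obtain ⟨n, rfl⟩ := h1
      exact ⟨n + 1, by rw [hBs]; exact (hnb (B n) n (hBδ n).1).2.2.2.1⟩
    · intro n j
      exact ((hnb (B n) n (hBδ n).1).2.2.2.2.2.2 j).1
    · intro n j
      rw [hBs]
      exact ((hnb (B n) n (hBδ n).1).2.2.2.2.2.2 j).2
    · intro n
      exact (hnb (B n) n (hBδ n).1).2.2.2.2.1
  have hk0 : k δ ≠ 0 := hks2 δ ⟨K, B, fun n => nt (B n) n, hK, hgood,
    fun n => (hnb (B n) n (hBδ n).1).2.2.2.2.2.1⟩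
  exact ⟨δ, hk0, fun i => hdec _ ((hks1 δ hk0).2 i)⟩

end

end Pool.Agent.SokDia
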