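import Pool.Agent.SokDia.Dia
import Pool.Agent.Sokolov.Final

/-!
# A non-metrizable Sokolov compact space with countable point-finite cellularity of `C_p(X)`
-/

open Set Filter Topology
open scoped Ordinal Cardinal

namespace Pool.Agent.SokDia

/-- Under `◇` the answer is negative. -/
theorem counterexample (h : Diamond) :
    ∃ (X : Type) (_ : TopologicalSpace X), CompactSpace X ∧ T2Space X ∧ Sokolov.IsSokolov X ∧
      Sokolov.PointFiniteCellularityCp X ∧ ¬ TopologicalSpace.MetrizableSpace X := by
  obtain ⟨A, hA⟩ := h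
  obtain ⟨c⟩ := exists_code
  obtain ⟨T, D, hD, hT⟩ := exists_data countable_Iio_Ω₁ not_countable_Ω₁ c A hA
  exact ⟨OnePoint D.Sp, inferInstance, inferInstance, inferInstance,
    D.isSokolov countable_Iio_Ω₁ not_countable_Ω₁ hT,
    pointFinite D countable_Iio_Ω₁ not_countable_Ω₁ hD,
    D.not_metrizable countable_Iio_Ω₁ not_countable_Ω₁⟩

end Pool.Agent.SokDia
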