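import Pool.Agent.SokDia.Top
import Pool.Agent.Sokolov.Defs

/-!
# The one-point compactification is a non-metrizable Sokolov space
-/

open Set Filter Topology

namespace Pool.Agent.SokDia

/-- Countable sets are bounded. -/
theorem bdd_of_countable {Ω : Type} [LinearOrder Ω] (hc : ∀ a : Ω, (Iio a).Countable)
    (hu : ¬ Countable Ω) (S : Set Ω) (hS : S.Countable) : ∃ b, ∀ a ∈ S, a < b := by
  by_contra hcon
  push Not at hcon
  apply hu
  have h1 : (univ : Set Ω) ⊆ ⋃ a ∈ S, (Iio a ∪ {a}) := by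
    intro b _
    obtain ⟨a, ha, hab⟩ := hcon b
    refine mem_iUnion₂.2 ⟨a, ha, ?_⟩
    rcases hab.lt_or_eq with h | h
    · exact Or.inl h
    · exact Or.inr h
  exact countable_univ_iff.1
    ((hS.biUnion (fun a _ => (hc a).union (countable_singleton a))).mono h1)

set_option linter.unusedSectionVars false

variable {Ω : Type} [LinearOrder Ω] [WellFoundedLT Ω] {T : Set Ω} (D : Data Ω T)

namespace Data

theorem countable_lev_lt (hc : ∀ a : Ω, (Iio a).Countable) (σ : Ω) :
    {x : D.Sp | D.lev x < σ}.Countable := by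
  have h1 : ({x : D.Sp | D.lev x < σ} : Set (Ω × ℕ)) ⊆ Iio σ ×ˢ (univ : Set ℕ) :=
    fun x hx => ⟨hx, mem_univ _⟩
  exact (Set.Countable.prod (hc σ) countable_univ).mono h1

/-- Cutting off at level `σ`. -/
noncomputable def cut (σ : Ω) : OnePoint D.Sp → OnePoint D.Sp :=
  open Classical in fun w => w.elim OnePoint.infty (fun a => if D.lev a < σ then (a : OnePoint D.Sp)
    else OnePoint.infty)

@[simp] theorem cut_infty (σ : Ω) : D.cut σ OnePoint.infty = OnePoint.infty := rfl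

theorem cut_lt {σ : Ω} {a : D.Sp} (h : D.lev a < σ) : D.cut σ (a : OnePoint D.Sp) = a := by
  change (if D.lev a < σ then (a : OnePoint D.Sp) else OnePoint.infty) = a
  rw [if_pos h]

theorem cut_ge {σ : Ω} {a : D.Sp} (h : ¬ D.lev a < σ) :
    D.cut σ (a : OnePoint D.Sp) = OnePoint.infty := by
  change (if D.lev a < σ then (a : OnePoint D.Sp) else OnePoint.infty) = OnePoint.infty
  rw [if_neg h]

theorem continuous_cut {σ : Ω} (hσ : σ ∉ T) : Continuous (D.cut σ) := by
  rw [OnePoint.continuous_iff]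
  constructor
  · rw [cut_infty, OnePoint.hasBasis_nhds_infty.tendsto_right_iff]
    rintro s ⟨hs1, hs2⟩
    refine mem_of_superset (hs2.compl_mem_coclosedCompact_of_isClosed hs1) (fun x hx => ?_)
    rw [Set.mem_ofPred_eq]
    by_cases h : D.lev x < σ
    · exact Or.inl ⟨x, hx, (D.cut_lt h).symm⟩
    · exact Or.inr (D.cut_ge h)
  · rw [continuous_iff_continuousAt]
    intro a
    by_cases h : D.lev a < σ
    · have h1 : (fun x : D.Sp => D.cut σ (x : OnePoint D.Sp)) =ᶠ[𝓝 a]
          fun x => (x : OnePoint D.Sp) := by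
        filter_upwards [(D.isOpen_lt σ).mem_nhds h] with x hx
        exact D.cut_lt hx
      exact (OnePoint.continuous_coe.continuousAt).congr h1.symm
    · have h1 : (fun x : D.Sp => D.cut σ (x : OnePoint D.Sp)) =ᶠ[𝓝 a]
          fun _ => (OnePoint.infty : OnePoint D.Sp) := by
        filter_upwards [(D.isOpen_ge hσ).mem_nhds (not_lt.1 h)] with x hx
        exact D.cut_ge (not_lt.2 hx)
      exact continuousAt_const.congr h1.symm

/-- The range of `cut σ` is countable. -/
theorem countable_range_cut (hc : ∀ a : Ω, (Iio a).Countable) (σ : Ω) :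
    (range (D.cut σ)).Countable := by
  refine (((D.countable_lev_lt hc σ).image (fun x : D.Sp => (x : OnePoint D.Sp))).union
    (countable_singleton OnePoint.infty)).mono ?_
  rintro _ ⟨w, rfl⟩
  induction w using OnePoint.rec with
  | infty => exact Or.inr rfl
  | coe a =>
    by_cases h : D.lev a < σ
    · rw [D.cut_lt h]; exact Or.inl ⟨a, h, rfl⟩
    · rw [D.cut_ge h]; exact Or.inr rfl

theorem countableNetwork_of_countable {X : Type} [TopologicalSpace X] {S : Set X}
    (hS : S.Countable) : Sokolov.CountableNetwork S := by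
  refine ⟨(fun x => {x}) '' S, hS.image _, ?_, ?_⟩
  · rintro _ ⟨x, hx, rfl⟩
    exact singleton_subset_iff.2 hx
  · intro x hx V _ hxV
    exact ⟨{x}, ⟨x, hx, rfl⟩, rfl, singleton_subset_iff.2 hxV⟩

/-- The key property of a tuple outside a closed set. -/
theorem exists_bound {n : ℕ} (F : Set (Fin n → OnePoint D.Sp)) (hF : IsClosed F)
    (w : Fin n → OnePoint D.Sp) (hw : w ∉ F) (σ : Ω) : ∃ β : Ω, ∀ x : Fin n → OnePoint D.Sp,
      (∀ i, w i ≠ OnePoint.infty → x i = w i) →
      (∀ i, w i = OnePoint.infty → ∀ a : D.Sp, x i = a → β < D.lev a) → x ∉ F := by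
  have h1 : Fᶜ ∈ 𝓝 w := hF.isOpen_compl.mem_nhds hw
  rw [nhds_pi, Filter.mem_pi] at h1
  obtain ⟨I, -, V, hV, hVF⟩ := h1
  have h2 : ∀ i, ∃ β : Ω, σ ≤ β ∧ (w i = OnePoint.infty → ∀ a : D.Sp, β < D.lev a →
      (a : OnePoint D.Sp) ∈ V i) := by
    intro i
    by_cases hi : w i = OnePoint.infty
    · have h3 := hV i
      rw [hi] at h3
      obtain ⟨K, ⟨-, hK⟩, hKV⟩ := OnePoint.hasBasis_nhds_infty.mem_iff.1 h3
      obtain ⟨β, hσ, hβ⟩ := D.compact_bdd K hK σ
      refine ⟨β, hσ, fun _ a ha => hKV (Or.inl ⟨a, fun haK => ?_, rfl⟩)⟩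
      exact absurd (lt_of_le_of_lt (hβ a haK) ha) (lt_irrefl _)
    · exact ⟨σ, le_rfl, fun h => absurd h hi⟩
  choose β hσ hβ using h2
  obtain ⟨b, hb⟩ : ∃ b, ∀ i, β i ≤ b := by
    rcases n with _ | n
    · exact ⟨σ, fun i => i.elim0⟩
    · obtain ⟨i0, hi0⟩ := Finite.exists_max β
      exact ⟨β i0, hi0⟩
  refine ⟨b, fun x hx1 hx2 hxF => ?_⟩
  refine hVF (fun i _ => ?_) hxF
  by_cases hi : w i = OnePoint.infty
  · rcases hx : x i with _ | a
    · have h3 := hV i
      rw [hi] at h3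
      exact mem_of_mem_nhds h3
    · exact hβ i hi a (lt_of_le_of_lt (hb i) (hx2 i hi a hx))
  · rw [hx1 i hi]
    exact mem_of_mem_nhds (hV i)

/-- The one-point compactification is a Sokolov space. -/
theorem isSokolov (hc : ∀ a : Ω, (Iio a).Countable) (hu : ¬ Countable Ω)
    (hT : ∀ h : Ω → Ω, ∃ δ, δ ∉ T ∧ (∃ γ, γ < δ) ∧ ∀ γ < δ, h γ < δ) :
    Sokolov.IsSokolov (OnePoint D.Sp) := by
  classical
  intro F hF
  obtain ⟨δ0, -⟩ := bdd_of_countable hc hu ∅ countable_empty
  have hbd : ∀ (n : ℕ) (w : Fin n → OnePoint D.Sp), ∃ β : Ω, w ∉ F n →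
      ∀ x : Fin n → OnePoint D.Sp, (∀ i, w i ≠ OnePoint.infty → x i = w i) →
      (∀ i, w i = OnePoint.infty → ∀ a : D.Sp, x i = a → β < D.lev a) → x ∉ F n := by
    intro n w
    by_cases hw : w ∈ F n
    · exact ⟨δ0, fun h => absurd hw h⟩
    · obtain ⟨β, hβ⟩ := D.exists_bound (F n) (hF n) w hw δ0
      exact ⟨β, fun _ => hβ⟩
  choose β hβ using hbd
  -- the points of `W` below a level
  let W : Ω → Set (OnePoint D.Sp) := fun γ => range (D.cut γ)
  have hWc : ∀ γ, (W γ).Countable := fun γ => D.countable_range_cut hc γ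
  have hh : ∀ γ : Ω, ∃ η : Ω, γ < η ∧ ∀ n, ∀ w : Fin n → OnePoint D.Sp, (∀ i, w i ∈ W γ) →
      β n w < η := by
    intro γ
    obtain ⟨η, hη⟩ := bdd_of_countable hc hu
      ({γ} ∪ ⋃ n, β n '' {w | ∀ i, w i ∈ W γ}) (by
        refine (countable_singleton _).union (countable_iUnion (fun n => ?_))
        refine Countable.image ?_ _
        have h3 : {w : Fin n → OnePoint D.Sp | ∀ i, w i ∈ W γ} = univ.pi (fun _ => W γ) := by
          ext w; simp [Set.mem_pi]
        rw [h3]
        exact Set.countable_univ_pi (fun _ => hWc γ))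
    exact ⟨η, hη γ (Or.inl rfl), fun n w hw => hη _ (Or.inr (mem_iUnion.2 ⟨n, w, hw, rfl⟩))⟩
  choose h hh1 hh2 using hh
  obtain ⟨δ, hδT, ⟨γ0, hγ0⟩, hδ⟩ := hT h
  refine ⟨D.cut δ, D.continuous_cut hδT,
    countableNetwork_of_countable (D.countable_range_cut hc δ), ?_⟩
  intro n x hx
  by_contra hcon
  set w : Fin n → OnePoint D.Sp := fun i => D.cut δ (x i) with hw
  -- all coordinates of `w` are below some `γ < δ`
  obtain ⟨γ, hγ, hγw⟩ : ∃ γ < δ, ∀ i, w i ∈ W γ := by
    have h3 : ∀ i, ∃ γ < δ, γ0 ≤ γ ∧ w i ∈ W γ := by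
      intro i
      rcases hxi : x i with _ | a
      · refine ⟨γ0, hγ0, le_rfl, ?_⟩
        rw [hw]
        simp only [hxi]
        exact ⟨OnePoint.infty, rfl⟩
      · by_cases ha : D.lev a < δ
        · refine ⟨max γ0 (h (D.lev a)), max_lt hγ0 (hδ _ ha), le_max_left _ _, ?_⟩
          rw [hw]
          simp only [hxi]
          have h4 : D.lev a < max γ0 (h (D.lev a)) := lt_max_of_lt_right (hh1 _)
          exact ⟨(a : OnePoint D.Sp), (D.cut_lt h4).trans (D.cut_lt ha).symm⟩
        · refine ⟨γ0, hγ0, le_rfl, ?_⟩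
          rw [hw]
          simp only [hxi]
          exact ⟨OnePoint.infty, (D.cut_ge ha).symm⟩
    choose g hg1 hg2 hg3 using h3
    have hWmono : ∀ γ γ' : Ω, γ ≤ γ' → W γ ⊆ W γ' := by
      rintro γ γ' hγγ _ ⟨v, rfl⟩
      rcases v with _ | a
      · exact ⟨OnePoint.infty, rfl⟩
      · by_cases ha : D.lev a < γ
        · exact ⟨(a : OnePoint D.Sp), (D.cut_lt (ha.trans_le hγγ)).trans (D.cut_lt ha).symm⟩
        · exact ⟨OnePoint.infty, (D.cut_ge ha).symm⟩
    rcases n with _ | n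
    · exact ⟨γ0, hγ0, fun i => i.elim0⟩
    · obtain ⟨i0, hi0⟩ := Finite.exists_max g
      exact ⟨g i0, hg1 i0, fun i => hWmono _ _ (hi0 i) (hg3 i)⟩
  have hβδ : β n w < δ := (hh2 γ n w hγw).trans (hδ γ hγ)
  refine hβ n w hcon x ?_ ?_ hx
  · intro i hi
    rcases hxi : x i with _ | a
    · exfalso
      apply hi
      rw [hw]
      simp only [hxi]
      rfl
    · by_cases ha : D.lev a < δ
      · rw [hw]
        simp only [hxi]
        exact (D.cut_lt ha).symm
      · exfalso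
        apply hi
        rw [hw]
        simp only [hxi]
        exact D.cut_ge ha
  · intro i hi a hxa
    by_cases ha : D.lev a < δ
    · exfalso
      rw [hw] at hi
      simp only [hxa] at hi
      rw [D.cut_lt ha] at hi
      exact OnePoint.coe_ne_infty a hi
    · exact lt_of_lt_of_le hβδ (not_lt.1 ha)

/-- The one-point compactification is not metrizable. -/
theorem not_metrizable (hc : ∀ a : Ω, (Iio a).Countable) (hu : ¬ Countable Ω) :
    ¬ TopologicalSpace.MetrizableSpace (OnePoint D.Sp) := by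
  intro hm
  have h1 : SecondCountableTopology (OnePoint D.Sp) := by
    let _ := TopologicalSpace.metrizableSpaceMetric (OnePoint D.Sp)
    infer_instance
  have h2 : SecondCountableTopology D.Sp := OnePoint.isOpenEmbedding_coe.secondCountableTopology
  obtain ⟨S, hS, hS2⟩ := TopologicalSpace.isOpen_iUnion_countable
    (fun a : D.Sp => D.NN a 0) (fun a => D.isOpen_NN a 0)
  obtain ⟨b, hb⟩ := bdd_of_countable hc hu (D.lev '' S) (hS.image _)
  have h3 : ((b, 0) : Ω × ℕ) ∈ (⋃ a ∈ S, D.NN a 0 : Set D.Sp) := by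
    rw [hS2]
    exact mem_iUnion.2 ⟨((b, 0) : Ω × ℕ), D.self_mem _ 0⟩
  obtain ⟨a, ha, hba⟩ := mem_iUnion₂.1 h3
  have h4 := D.N_le' a 0 _ hba
  exact absurd (lt_of_le_of_lt h4 (hb _ ⟨a, ha, rfl⟩)) (lt_irrefl _)

end Data

end Pool.Agent.SokDia
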