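import Mathlib

/-!
# A locally compact, locally countable topology on `Ω × ℕ` built from ladders of tuples

`Ω` is a well-ordered set (in the application `ω₁`), `T` a subset of `Ω`, and for every `δ` with
`k δ ≠ 0` we are given a sequence `s δ i` of `k δ`-tuples of points of `Ω × ℕ`, converging to level
`δ`.  The new points `(δ, j)`, `j < k δ`, become limits of the points `s δ i j`.
-/

open Set Filter Topology

namespace Pool.Agent.SokDia

variable {Ω : Type} [LinearOrder Ω] [WellFoundedLT Ω]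

/-- The ladder condition at level `δ`. -/
structure Good (T : Set Ω) (δ : Ω) (k : ℕ) (b : ℕ → Ω) (s : ℕ → Fin k → Ω × ℕ) : Prop where
  memT : δ ∈ T
  notT : ∀ i, b i ∉ T
  lt : ∀ i, b i < b (i + 1)
  ltδ : ∀ i, b i < δ
  cof : ∀ γ < δ, ∃ i, γ < b i
  low : ∀ i j, b i ≤ (s i j).1
  high : ∀ i j, (s i j).1 < b (i + 1)
  inj : ∀ i, Function.Injective (s i)

/-- Ladder data on `Ω`. -/
structure Data (Ω : Type) [LinearOrder Ω] (T : Set Ω) where
  k : Ω → ℕ
  b : Ω → ℕ → Ω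
  s : (δ : Ω) → ℕ → Fin (k δ) → Ω × ℕ
  good : ∀ δ, k δ ≠ 0 → Good T δ (k δ) (b δ) (s δ)

variable {T : Set Ω} (D : Data Ω T)

namespace Data

/-- Auxiliary: neighbourhoods of points below level `δ`. -/
def aux (δ : Ω) (rec : (σ : Ω) → σ < δ → ℕ → ℕ → Set (Ω × ℕ)) (a : Ω × ℕ) (e : ℕ) :
    Set (Ω × ℕ) := open Classical in if h : a.1 < δ then rec a.1 h a.2 e else ∅

/-- Basic neighbourhoods, by recursion on the level. -/
noncomputable def N0 : Ω → ℕ → ℕ → Set (Ω × ℕ) :=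
  WellFounded.fix (wellFounded_lt (α := Ω)) (fun δ rec j m =>
    {(δ, j)} ∪ ⋃ (hj : j < D.k δ), ⋃ i, ⋃ (_ : m ≤ i), aux δ rec (D.s δ i ⟨j, hj⟩)
      (sInf {e | (∀ j : Fin (D.k δ), ∀ x ∈ aux δ rec (D.s δ i j) e, D.b δ i ≤ x.1) ∧
        ∀ j j' : Fin (D.k δ), j ≠ j' →
          Disjoint (aux δ rec (D.s δ i j) e) (aux δ rec (D.s δ i j') e)}))

/-- The basic neighbourhoods of the point `a`. -/
noncomputable def N (a : Ω × ℕ) (m : ℕ) : Set (Ω × ℕ) := D.N0 a.1 a.2 m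

/-- The conditions on the size of the neighbourhoods at the `i`-th step of the ladder. -/
def Cond (δ : Ω) (i e : ℕ) : Prop :=
  (∀ j : Fin (D.k δ), ∀ x ∈ D.N (D.s δ i j) e, D.b δ i ≤ x.1) ∧
    ∀ j j' : Fin (D.k δ), j ≠ j' → Disjoint (D.N (D.s δ i j) e) (D.N (D.s δ i j') e)

/-- The chosen size. -/
noncomputable def E (δ : Ω) (i : ℕ) : ℕ := sInf {e | D.Cond δ i e}

omit [WellFoundedLT Ω] in
theorem s_lt (δ : Ω) (i : ℕ) (j : Fin (D.k δ)) : (D.s δ i j).1 < δ := by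
  have h0 : D.k δ ≠ 0 := fun h => by have := j.2; omega
  exact ((D.good δ h0).high i j).trans ((D.good δ h0).ltδ (i + 1))

theorem N_eq (δ : Ω) (j m : ℕ) :
    D.N (δ, j) m = {(δ, j)} ∪ ⋃ (hj : j < D.k δ), ⋃ i, ⋃ (_ : m ≤ i),
      D.N (D.s δ i ⟨j, hj⟩) (D.E δ i) := by
  have h1 : ∀ (i : ℕ) (j : Fin (D.k δ)) (e : ℕ),
      aux δ (fun σ _ => D.N0 σ) (D.s δ i j) e = D.N (D.s δ i j) e := by
    intro i j e
    rw [aux, dif_pos (D.s_lt δ i j)]
    rfl
  have h2 : D.N0 δ = _ := WellFounded.fix_eq (wellFounded_lt (α := Ω)) _ δ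
  have h3 : D.N (δ, j) m = D.N0 δ j m := rfl
  rw [h3, h2]
  change ({(δ, j)} ∪ ⋃ (hj : j < D.k δ), ⋃ i, ⋃ (_ : m ≤ i),
    aux δ (fun σ _ => D.N0 σ) (D.s δ i ⟨j, hj⟩)
      (sInf {e | (∀ j : Fin (D.k δ), ∀ x ∈ aux δ (fun σ _ => D.N0 σ) (D.s δ i j) e,
        D.b δ i ≤ x.1) ∧ ∀ j j' : Fin (D.k δ), j ≠ j' →
          Disjoint (aux δ (fun σ _ => D.N0 σ) (D.s δ i j) e)
            (aux δ (fun σ _ => D.N0 σ) (D.s δ i j') e)}) : Set (Ω × ℕ)) = _
  simp only [h1]
  rfl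

theorem mem_N {δ : Ω} {j m : ℕ} {x : Ω × ℕ} :
    x ∈ D.N (δ, j) m ↔ x = (δ, j) ∨
      ∃ (hj : j < D.k δ) (i : ℕ), m ≤ i ∧ x ∈ D.N (D.s δ i ⟨j, hj⟩) (D.E δ i) := by
  rw [N_eq]
  simp only [mem_union, mem_singleton_iff, mem_iUnion, exists_prop]

theorem self_mem (a : Ω × ℕ) (m : ℕ) : a ∈ D.N a m := by
  obtain ⟨δ, j⟩ := a
  exact (D.mem_N).2 (Or.inl rfl)

theorem N_anti (a : Ω × ℕ) {m m' : ℕ} (h : m ≤ m') : D.N a m' ⊆ D.N a m := by
  obtain ⟨δ, j⟩ := a
  intro x hx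
  rcases (D.mem_N).1 hx with h1 | ⟨hj, i, hi, h1⟩
  · exact (D.mem_N).2 (Or.inl h1)
  · exact (D.mem_N).2 (Or.inr ⟨hj, i, h.trans hi, h1⟩)

theorem N_le (a : Ω × ℕ) (m : ℕ) (x : Ω × ℕ) (hx : x ∈ D.N a m) : x = a ∨ x.1 < a.1 := by
  suffices H : ∀ δ : Ω, ∀ j m, ∀ x ∈ D.N (δ, j) m, x = (δ, j) ∨ x.1 < δ from
    H a.1 a.2 m x hx
  intro δ
  induction δ using WellFoundedLT.induction with
  | ind δ ih =>
    intro j m x hx
    rcases (D.mem_N).1 hx with h1 | ⟨hj, i, -, h1⟩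
    · exact Or.inl h1
    · right
      have h2 := D.s_lt δ i ⟨j, hj⟩
      rcases ih _ h2 (D.s δ i ⟨j, hj⟩).2 _ x h1 with h3 | h3
      · rw [h3]; exact h2
      · exact h3.trans h2

theorem N_le' (a : Ω × ℕ) (m : ℕ) (x : Ω × ℕ) (hx : x ∈ D.N a m) : x.1 ≤ a.1 := by
  rcases D.N_le a m x hx with h | h
  · rw [h]
  · exact h.le

/-- Neighbourhoods are open. -/
theorem N_open (a : Ω × ℕ) (m : ℕ) (x : Ω × ℕ) (hx : x ∈ D.N a m) : ∃ e, D.N x e ⊆ D.N a m := by
  suffices H : ∀ δ : Ω, ∀ j m, ∀ x ∈ D.N (δ, j) m, ∃ e, D.N x e ⊆ D.N (δ, j) m from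
    H a.1 a.2 m x hx
  intro δ
  induction δ using WellFoundedLT.induction with
  | ind δ ih =>
    intro j m x hx
    rcases (D.mem_N).1 hx with h1 | ⟨hj, i, hi, h1⟩
    · exact ⟨m, by rw [h1]⟩
    · obtain ⟨e, he⟩ := ih _ (D.s_lt δ i ⟨j, hj⟩) _ _ x h1
      exact ⟨e, fun y hy => (D.mem_N).2 (Or.inr ⟨hj, i, hi, he hy⟩)⟩

theorem cond_mono {δ : Ω} {i e e' : ℕ} (h : e ≤ e') (hc : D.Cond δ i e) : D.Cond δ i e' :=
  ⟨fun j x hx => hc.1 j x (D.N_anti _ h hx), fun j j' hj =>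
    (hc.2 j j' hj).mono (D.N_anti _ h) (D.N_anti _ h)⟩

/-- The main induction: levels not in `T` can be separated from below, and distinct points have
disjoint neighbourhoods. -/
theorem main_ind (δ : Ω) :
    (∀ i, D.Cond δ i (D.E δ i)) ∧
    (∀ j σ, σ ∉ T → σ ≤ δ → ∃ m, ∀ x ∈ D.N (δ, j) m, σ ≤ x.1) ∧
    (∀ j (c : Ω × ℕ), c.1 ≤ δ → c ≠ (δ, j) → ∃ m, Disjoint (D.N (δ, j) m) (D.N c m)) := by
  induction δ using WellFoundedLT.induction with
  | ind δ ih =>
    have hE : ∀ i, D.Cond δ i (D.E δ i) := by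
      intro i
      have h1 : ({e | D.Cond δ i e} : Set ℕ).Nonempty := by
        have ha : ∀ j : Fin (D.k δ), ∃ m, ∀ x ∈ D.N (D.s δ i j) m, D.b δ i ≤ x.1 := by
          intro j
          have h0 : D.k δ ≠ 0 := fun h => by have := j.2; omega
          exact (ih _ (D.s_lt δ i j)).2.1 (D.s δ i j).2 (D.b δ i) ((D.good δ h0).notT i)
            ((D.good δ h0).low i j)
        have hb : ∀ j j' : Fin (D.k δ), ∃ m, j ≠ j' →
            Disjoint (D.N (D.s δ i j) m) (D.N (D.s δ i j') m) := by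
          intro j j'
          by_cases hjj : j = j'
          · exact ⟨0, fun h => absurd hjj h⟩
          have h0 : D.k δ ≠ 0 := fun h => by have := j.2; omega
          have hne : D.s δ i j ≠ D.s δ i j' := fun h => hjj ((D.good δ h0).inj i h)
          rcases le_total (D.s δ i j').1 (D.s δ i j).1 with h | h
          · obtain ⟨m, hm⟩ := (ih _ (D.s_lt δ i j)).2.2 (D.s δ i j).2 (D.s δ i j') h hne.symm
            exact ⟨m, fun _ => hm⟩
          · obtain ⟨m, hm⟩ := (ih _ (D.s_lt δ i j')).2.2 (D.s δ i j').2 (D.s δ i j) h hne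
            exact ⟨m, fun _ => hm.symm⟩
        choose ma hma using ha
        choose mb hmb using hb
        let M := (∑ j, ma j) + ∑ j, ∑ j', mb j j'
        have h3 : ∀ j, ma j ≤ M := fun j =>
          (Finset.single_le_sum (f := ma) (fun _ _ => Nat.zero_le _) (Finset.mem_univ j)).trans
            (Nat.le_add_right _ _)
        have h4 : ∀ j j', mb j j' ≤ M := fun j j' =>
          ((Finset.single_le_sum (f := mb j) (fun _ _ => Nat.zero_le _)
            (Finset.mem_univ j')).trans (Finset.single_le_sum (f := fun j => ∑ j', mb j j')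
              (fun _ _ => Nat.zero_le _) (Finset.mem_univ j))).trans (Nat.le_add_left _ _)
        exact ⟨M, fun j x hx => hma j x (D.N_anti _ (h3 j) hx), fun j j' hj =>
          (hmb j j' hj).mono (D.N_anti _ (h4 j j')) (D.N_anti _ (h4 j j'))⟩
      exact Nat.sInf_mem h1
    -- points of the neighbourhoods of `(δ, j)` are high
    have hhigh : ∀ j m, ∀ x ∈ D.N (δ, j) m, x = (δ, j) ∨ D.b δ m ≤ x.1 := by
      intro j m x hx
      rcases (D.mem_N).1 hx with h1 | ⟨hj, i, hi, h1⟩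
      · exact Or.inl h1
      · right
        have h0 : D.k δ ≠ 0 := fun h => by omega
        have hmono : StrictMono (D.b δ) := strictMono_nat_of_lt_succ (D.good δ h0).lt
        exact (hmono.monotone hi).trans ((hE i).1 ⟨j, hj⟩ x h1)
    have hiso : ∀ j m, ¬ j < D.k δ → ∀ x ∈ D.N (δ, j) m, x = (δ, j) := by
      intro j m hj x hx
      rcases (D.mem_N).1 hx with h1 | ⟨hj', -⟩
      · exact h1
      · exact absurd hj' hj
    refine ⟨hE, ?_, ?_⟩
    · intro j σ hσ hσδ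
      by_cases hj : j < D.k δ
      · have h0 : D.k δ ≠ 0 := fun h => by omega
        have hg := D.good δ h0
        have hlt : σ < δ := lt_of_le_of_ne hσδ (fun h => hσ (h ▸ hg.memT))
        obtain ⟨i, hi⟩ := hg.cof σ hlt
        refine ⟨i, fun x hx => ?_⟩
        rcases hhigh j i x hx with h | h
        · rw [h]; exact hσδ
        · exact hi.le.trans h
      · exact ⟨0, fun x hx => by rw [hiso j 0 hj x hx]; exact hσδ⟩
    · intro j c hc hcne
      rcases hc.lt_or_eq with hlt | heq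
      · by_cases hj : j < D.k δ
        · have h0 : D.k δ ≠ 0 := fun h => by omega
          obtain ⟨i, hi⟩ := (D.good δ h0).cof c.1 hlt
          refine ⟨i, Set.disjoint_left.2 (fun x hx hx' => ?_)⟩
          have h5 := D.N_le' c i x hx'
          rcases hhigh j i x hx with h | h
          · rw [h] at h5
            exact absurd (lt_of_le_of_lt h5 hlt) (lt_irrefl _)
          · exact absurd (lt_of_le_of_lt (h.trans h5) hi) (lt_irrefl _)
        · refine ⟨0, Set.disjoint_left.2 (fun x hx hx' => ?_)⟩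
          have h5 := D.N_le' c 0 x hx'
          rw [hiso j 0 hj x hx] at h5
          exact absurd (lt_of_le_of_lt h5 hlt) (lt_irrefl _)
      · obtain ⟨c1, j'⟩ := c
        simp only at heq
        subst heq
        have hjj : j' ≠ j := fun h => hcne (by rw [h])
        refine ⟨0, Set.disjoint_left.2 (fun x hx hx' => ?_)⟩
        rcases (D.mem_N).1 hx with h1 | ⟨hj, i, -, h1⟩
        · rcases D.N_le _ _ _ hx' with h2 | h2
          · rw [h1] at h2
            exact hjj (congrArg Prod.snd h2).symm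
          · rw [h1] at h2
            exact absurd h2 (lt_irrefl _)
        · have hx1 := lt_of_le_of_lt (D.N_le' _ _ _ h1) (D.s_lt c1 i ⟨j, hj⟩)
          rcases (D.mem_N).1 hx' with h2 | ⟨hj', i', -, h2⟩
          · rw [h2] at hx1
            exact absurd hx1 (lt_irrefl _)
          · have h0 : D.k c1 ≠ 0 := fun h => by omega
            have hg := D.good c1 h0
            have hmono : StrictMono (D.b c1) := strictMono_nat_of_lt_succ hg.lt
            rcases lt_trichotomy i i' with hii | hii | hii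
            · have h3 := (hE i').1 ⟨j', hj'⟩ x h2
              have h4 := lt_of_le_of_lt (D.N_le' _ _ _ h1) (hg.high i ⟨j, hj⟩)
              exact absurd (lt_of_le_of_lt ((hmono.monotone hii).trans h3) h4) (lt_irrefl _)
            · subst hii
              have h3 := (hE i).2 ⟨j, hj⟩ ⟨j', hj'⟩ (fun h => hjj (by
                simpa using (congrArg Fin.val h).symm))
              exact Set.disjoint_left.1 h3 h1 h2
            · have h3 := (hE i).1 ⟨j, hj⟩ x h1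
              have h4 := lt_of_le_of_lt (D.N_le' _ _ _ h2) (hg.high i' ⟨j', hj'⟩)
              exact absurd (lt_of_le_of_lt ((hmono.monotone hii).trans h3) h4) (lt_irrefl _)

theorem N_high {δ : Ω} {j m : ℕ} {x : Ω × ℕ} (hx : x ∈ D.N (δ, j) m) :
    x = (δ, j) ∨ D.b δ m ≤ x.1 := by
  rcases (D.mem_N).1 hx with h1 | ⟨hj, i, hi, h1⟩
  · exact Or.inl h1
  · right
    have h0 : D.k δ ≠ 0 := fun h => by omega
    have hmono : StrictMono (D.b δ) := strictMono_nat_of_lt_succ (D.good δ h0).lt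
    exact (hmono.monotone hi).trans (((D.main_ind δ).1 i).1 ⟨j, hj⟩ x h1)

theorem N_disj_same (δ : Ω) {j j' : ℕ} (hjj : j ≠ j') (m m' : ℕ) :
    Disjoint (D.N (δ, j) m) (D.N (δ, j') m') := by
  have hE := (D.main_ind δ).1
  refine Set.disjoint_left.2 (fun x hx hx' => ?_)
  rcases (D.mem_N).1 hx with h1 | ⟨hj, i, -, h1⟩
  · rcases D.N_le _ _ _ hx' with h2 | h2
    · rw [h1] at h2
      exact hjj (congrArg Prod.snd h2)
    · rw [h1] at h2
      exact absurd h2 (lt_irrefl _)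
  · have hx1 := lt_of_le_of_lt (D.N_le' _ _ _ h1) (D.s_lt δ i ⟨j, hj⟩)
    rcases (D.mem_N).1 hx' with h2 | ⟨hj', i', -, h2⟩
    · rw [h2] at hx1
      exact absurd hx1 (lt_irrefl _)
    · have h0 : D.k δ ≠ 0 := fun h => by omega
      have hg := D.good δ h0
      have hmono : StrictMono (D.b δ) := strictMono_nat_of_lt_succ hg.lt
      rcases lt_trichotomy i i' with hii | hii | hii
      · have h3 := (hE i').1 ⟨j', hj'⟩ x h2
        have h4 := lt_of_le_of_lt (D.N_le' _ _ _ h1) (hg.high i ⟨j, hj⟩)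
        exact absurd (lt_of_le_of_lt ((hmono.monotone hii).trans h3) h4) (lt_irrefl _)
      · subst hii
        have h3 := (hE i).2 ⟨j, hj⟩ ⟨j', hj'⟩ (fun h => hjj (by
          simpa using (congrArg Fin.val h)))
        exact Set.disjoint_left.1 h3 h1 h2
      · have h3 := (hE i).1 ⟨j, hj⟩ x h1
        have h4 := lt_of_le_of_lt (D.N_le' _ _ _ h2) (hg.high i' ⟨j', hj'⟩)
        exact absurd (lt_of_le_of_lt ((hmono.monotone hii).trans h3) h4) (lt_irrefl _)

/-- The ladder of `(δ, j)` converges to `(δ, j)`. -/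
theorem s_mem_N (δ : Ω) (j : Fin (D.k δ)) {m i : ℕ} (h : m ≤ i) :
    D.s δ i j ∈ D.N (δ, j.1) m :=
  (D.mem_N).2 (Or.inr ⟨j.2, i, h, D.self_mem _ _⟩)

theorem N_sep (a : Ω × ℕ) {σ : Ω} (hσ : σ ∉ T) (h : σ ≤ a.1) : ∃ m, ∀ x ∈ D.N a m, σ ≤ x.1 :=
  (D.main_ind a.1).2.1 a.2 σ hσ h

theorem N_disj (a c : Ω × ℕ) (h : a ≠ c) : ∃ m, Disjoint (D.N a m) (D.N c m) := by
  rcases le_total c.1 a.1 with h1 | h1
  · exact (D.main_ind a.1).2.2 a.2 c h1 h.symm
  · obtain ⟨m, hm⟩ := (D.main_ind c.1).2.2 c.2 a h1 h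
    exact ⟨m, hm.symm⟩

/-- The underlying set of our space. -/
def Sp (_ : Data Ω T) : Type := Ω × ℕ

/-- The topology generated by the basic neighbourhoods. -/
instance : TopologicalSpace D.Sp where
  IsOpen U := ∀ a ∈ U, ∃ m, D.N a m ⊆ U
  isOpen_univ := fun _ _ => ⟨0, subset_univ _⟩
  isOpen_inter := by
    intro U V hU hV a ha
    obtain ⟨m, hm⟩ := hU a ha.1
    obtain ⟨m', hm'⟩ := hV a ha.2
    exact ⟨max m m', subset_inter ((D.N_anti a (le_max_left m m')).trans hm)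
      ((D.N_anti a (le_max_right m m')).trans hm')⟩
  isOpen_sUnion := by
    intro S hS a ha
    obtain ⟨U, hU, haU⟩ := ha
    obtain ⟨m, hm⟩ := hS U hU a haU
    exact ⟨m, hm.trans (subset_sUnion_of_mem hU)⟩

/-- The basic neighbourhoods as subsets of the space. -/
noncomputable def NN (a : D.Sp) (m : ℕ) : Set D.Sp := D.N a m

/-- The level of a point. -/
def lev (a : D.Sp) : Ω := Prod.fst a

theorem isOpen_def {U : Set D.Sp} : IsOpen U ↔ ∀ a ∈ U, ∃ m, D.NN a m ⊆ U := Iff.rfl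

theorem isOpen_NN (a : D.Sp) (m : ℕ) : IsOpen (D.NN a m) := fun x hx => D.N_open a m x hx

theorem self_mem_NN (a : D.Sp) (m : ℕ) : a ∈ D.NN a m := D.self_mem a m

instance : T2Space D.Sp := by
  refine ⟨fun a c hac => ?_⟩
  obtain ⟨m, hm⟩ := D.N_disj a c hac
  exact ⟨D.NN a m, D.NN c m, D.isOpen_NN a m, D.isOpen_NN c m, D.self_mem_NN a m,
    D.self_mem_NN c m, hm⟩

theorem isCompact_NN (a : D.Sp) (m : ℕ) : IsCompact (D.NN a m) := by
  suffices H : ∀ δ : Ω, ∀ j m, IsCompact (D.NN ((δ, j) : Ω × ℕ) m) from H a.1 a.2 m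
  intro δ
  induction δ using WellFoundedLT.induction with
  | ind δ ih =>
    intro j m
    refine isCompact_of_finite_subcover (fun {ι} U hU hcov => ?_)
    obtain ⟨i0, hi0⟩ := mem_iUnion.1 (hcov (D.self_mem_NN ((δ, j) : Ω × ℕ) m))
    obtain ⟨m', hm'⟩ := hU i0 _ hi0
    have h1 : ∀ (hj : j < D.k δ) (i : ℕ), m ≤ i →
        D.NN (D.s δ i ⟨j, hj⟩) (D.E δ i) ⊆ ⋃ i, U i := by
      intro hj i hi x hx
      exact hcov ((D.mem_N).2 (Or.inr ⟨hj, i, hi, hx⟩))
    by_cases hj : j < D.k δ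
    · have h2 : ∀ i, m ≤ i → ∃ t : Finset ι, D.NN (D.s δ i ⟨j, hj⟩) (D.E δ i) ⊆
          ⋃ i ∈ t, U i := fun i hi =>
        (ih _ (D.s_lt δ i ⟨j, hj⟩) (D.s δ i ⟨j, hj⟩).2 (D.E δ i)).elim_finite_subcover U hU
          (h1 hj i hi)
      classical
      have h3 : ∀ i, ∃ t : Finset ι, m ≤ i → D.NN (D.s δ i ⟨j, hj⟩) (D.E δ i) ⊆
          ⋃ i ∈ t, U i := by
        intro i
        by_cases hi : m ≤ i
        · obtain ⟨t, ht⟩ := h2 i hi
          exact ⟨t, fun _ => ht⟩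
        · exact ⟨∅, fun h => absurd h hi⟩
      choose t ht using h3
      refine ⟨insert i0 ((Finset.range m').biUnion t), ?_⟩
      intro x hx
      rcases (D.mem_N).1 hx with h4 | ⟨hj', i, hi, h4⟩
      · refine mem_iUnion₂.2 ⟨i0, Finset.mem_insert_self _ _, ?_⟩
        rw [h4]; exact hi0
      · by_cases him : m' ≤ i
        · refine mem_iUnion₂.2 ⟨i0, Finset.mem_insert_self _ _, hm' ?_⟩
          exact (D.mem_N).2 (Or.inr ⟨hj', i, him, h4⟩)
        · obtain ⟨l, hl, hxl⟩ := mem_iUnion₂.1 (ht i hi h4)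
          refine mem_iUnion₂.2 ⟨l, Finset.mem_insert_of_mem ?_, hxl⟩
          exact Finset.mem_biUnion.2 ⟨i, Finset.mem_range.2 (not_le.1 him), hl⟩
    · refine ⟨{i0}, ?_⟩
      intro x hx
      rcases (D.mem_N).1 hx with h4 | ⟨hj', -⟩
      · refine mem_iUnion₂.2 ⟨i0, Finset.mem_singleton_self _, ?_⟩
        rw [h4]; exact hi0
      · exact absurd hj' hj

instance : WeaklyLocallyCompactSpace D.Sp :=
  ⟨fun a => ⟨D.NN a 0, D.isCompact_NN a 0, (D.isOpen_NN a 0).mem_nhds (D.self_mem_NN a 0)⟩⟩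

theorem isClosed_NN (a : D.Sp) (m : ℕ) : IsClosed (D.NN a m) := (D.isCompact_NN a m).isClosed

/-- Compact sets are bounded. -/
theorem compact_bdd (K : Set D.Sp) (hK : IsCompact K) (σ : Ω) :
    ∃ β, σ ≤ β ∧ ∀ x ∈ K, D.lev x ≤ β := by
  classical
  obtain ⟨t, ht⟩ := hK.elim_finite_subcover (fun a : D.Sp => D.NN a 0)
    (fun a => D.isOpen_NN a 0) (fun x _ => mem_iUnion.2 ⟨x, D.self_mem_NN x 0⟩)
  clear hK
  induction t using Finset.induction_on generalizing K with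
  | empty => exact ⟨σ, le_rfl, fun x hx => by simpa using ht hx⟩
  | insert a t _ ih =>
    obtain ⟨β, hβ, h1⟩ := ih (K ∩ ⋃ a ∈ t, D.NN a 0) inter_subset_right
    refine ⟨max (D.lev a) β, hβ.trans (le_max_right _ _), fun x hx => ?_⟩
    obtain ⟨c, hc, hxc⟩ := mem_iUnion₂.1 (ht hx)
    rcases Finset.mem_insert.1 hc with rfl | h
    · exact (D.N_le' c 0 x hxc).trans (le_max_left _ _)
    · exact (h1 x ⟨hx, mem_iUnion₂.2 ⟨c, h, hxc⟩⟩).trans (le_max_right _ _)

theorem isOpen_lt (σ : Ω) : IsOpen {x : D.Sp | D.lev x < σ} := by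
  intro a ha
  exact ⟨0, fun x hx => lt_of_le_of_lt (D.N_le' a 0 x hx) ha⟩

theorem isOpen_ge {σ : Ω} (hσ : σ ∉ T) : IsOpen {x : D.Sp | σ ≤ D.lev x} := by
  intro a ha
  obtain ⟨m, hm⟩ := D.N_sep a hσ ha
  exact ⟨m, fun x hx => hm x hx⟩

end Data

end Pool.Agent.SokDia
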